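import Mathlib

set_option autoImplicit false

open Complex

namespace Pool.Agent.Results.MP_54ed65_an.Nonneg

/-- `p_β(z) = ((1 + z) / (1 - z)) ^ β`, principal power. -/
noncomputable def p (β : ℝ) (z : ℂ) : ℂ := ((1 + z) / (1 - z)) ^ (β : ℂ)

/-- `P_{α,β}`. -/
noncomputable def P (α β : ℝ) (z : ℂ) : ℂ :=
  ((α * ‖z‖ ^ 2 + (1 - α) * (1 - ‖z‖ ^ 2) : ℝ) : ℂ) * p β z +
    (((1 - α) * (1 - ‖z‖ ^ 2) : ℝ) : ℂ) * (z * deriv (p β) z)

theorem ang {w : ℂ} (hw : 0 < w.re) {β : ℝ} (h0 : 0 ≤ β) (h1 : β ≤ 1) :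
    0 ≤ (w ^ (β : ℂ)).re ∧ w.im * (w ^ (β : ℂ)).im * w.re ≤ w.im ^ 2 * (w ^ (β : ℂ)).re := by
  have hw0 : w ≠ 0 := by rintro rfl; simp at hw
  have ha := abs_lt.1 (abs_arg_lt_pi_div_two_iff.2 (Or.inl hw))
  have hp := Real.pi_pos
  rw [cpow_ofReal_re, cpow_ofReal_im]
  refine ⟨mul_nonneg (by positivity) (Real.cos_nonneg_of_mem_Icc ⟨by nlinarith, by nlinarith⟩), ?_⟩
  have h2 : 0 ≤ Real.sin w.arg * Real.sin (w.arg - w.arg * β) := by
    rcases le_total 0 w.arg with h | h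
    · exact mul_nonneg (Real.sin_nonneg_of_nonneg_of_le_pi h (by linarith))
        (Real.sin_nonneg_of_nonneg_of_le_pi (by nlinarith) (by nlinarith))
    · exact mul_nonneg_of_nonpos_of_nonpos (Real.sin_nonpos_of_nonpos_of_neg_pi_le h (by linarith))
        (Real.sin_nonpos_of_nonpos_of_neg_pi_le (by nlinarith) (by nlinarith))
  rw [← norm_mul_sin_arg w, ← norm_mul_cos_arg w]
  rw [Real.sin_sub] at h2
  nlinarith [mul_nonneg (mul_nonneg (sq_nonneg ‖w‖) (Real.rpow_nonneg (norm_nonneg w) β)) h2]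

theorem result (α β : ℝ) (hα : 0 < α) (hα' : α < 2 / 3) (hβ : 0 < β)
    (h : 0 ≤ α - 2 * (1 - α) * β) (z : ℂ) (hz : ‖z‖ < 1) : 0 ≤ (P α β z).re := by
  have hn : ‖z‖ ^ 2 = z.re ^ 2 + z.im ^ 2 := by rw [Complex.sq_norm, normSq_apply]; ring
  have ht : z.re ^ 2 + z.im ^ 2 < 1 := by rw [← hn]; nlinarith [norm_nonneg z]
  have h1 : 1 - z ≠ 0 := fun e => by rw [← sub_eq_zero.1 e] at hz; simp at hz
  have h2 : 1 + z ≠ 0 := fun e => by rw [eq_neg_of_add_eq_zero_right e] at hz; simp at hz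
  have n1 := normSq_pos.2 h1
  have n2 := normSq_pos.2 h2
  have hre : ((1 + z) / (1 - z)).re = (1 - (z.re ^ 2 + z.im ^ 2)) / normSq (1 - z) := by
    rw [div_re]; simp; ring
  have him : ((1 + z) / (1 - z)).im = 2 * z.im / normSq (1 - z) := by
    rw [div_im]; simp; ring
  have hw : 0 < ((1 + z) / (1 - z)).re := by rw [hre]; exact div_pos (by linarith) n1
  obtain ⟨a1, a2⟩ := ang hw hβ.le (by nlinarith)
  have hd : z * deriv (p β) z = β * (2 * z * (starRingEnd ℂ) ((1 - z) * (1 + z))) /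
      ((normSq (1 - z) * normSq (1 + z) : ℝ) : ℂ) * p β z := by
    have := (((hasDerivAt_id z).const_add 1).div ((hasDerivAt_id z).const_sub 1) h1).cpow_const
      (c := β) (Or.inl hw)
    rw [show deriv (p β) z = _ from this.deriv, ← map_mul normSq, ← mul_conj]
    have h3 : (starRingEnd ℂ) ((1 - z) * (1 + z)) ≠ 0 := by
      rw [map_ne_zero]; exact mul_ne_zero h1 h2
    simp only [p, Pi.div_apply, id, cpow_sub _ _ (div_ne_zero h2 h1), cpow_one]
    generalize (starRingEnd ℂ) ((1 - z) * (1 + z)) = c at *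
    field_simp; ring
  rw [hre, him] at a2
  rw [P, hd, hn]
  change 0 ≤ (p β z).re at a1
  change _ * (p β z).im * _ ≤ _ * (p β z).re at a2
  have hD : normSq (1 - z) * normSq (1 + z) = (1 - (z.re ^ 2 + z.im ^ 2)) ^ 2 + 4 * z.im ^ 2 := by
    simp [normSq_apply]; ring
  have hD0 := mul_pos n1 n2
  have a3 : z.im * (p β z).im * (1 - (z.re ^ 2 + z.im ^ 2)) ≤ 2 * z.im ^ 2 * (p β z).re := by
    field_simp at a2
    nlinarith
  generalize p β z = q at *
  generalize normSq (1 - z) * normSq (1 + z) = D at *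
  simp only [add_re, re_ofReal_mul, mul_re (_ / _), div_ofReal_re, div_ofReal_im, im_ofReal_mul]
  simp only [mul_re, mul_im, conj_re, conj_im, sub_re, sub_im, add_re, add_im, one_re, one_im,
    re_ofNat, im_ofNat]
  generalize z.re = x at *
  generalize z.im = y at *
  rw [← mul_nonneg_iff_of_pos_right hD0]
  have hk : 0 ≤ (1 - α) * β := by nlinarith
  have b1 := mul_le_mul_of_nonneg_left a3 (show 0 ≤ (1 - α) * β * (2 * (1 + (x ^ 2 + y ^ 2))) by
    positivity)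
  have b2 : 0 ≤ q.re * D * (α * (x ^ 2 + y ^ 2) + (1 - α) * (1 - (x ^ 2 + y ^ 2)) -
      (1 - α) * β * (1 + (x ^ 2 + y ^ 2))) := mul_nonneg (mul_nonneg a1 hD0.le) (by nlinarith)
  have b3 : 0 ≤ (1 - α) * β * q.re * ((1 - (x ^ 2 + y ^ 2)) ^ 2 * ((1 + x) ^ 2 + y ^ 2)) := by
    positivity
  field_simp
  subst hD
  nlinarith

end Pool.Agent.Results.MP_54ed65_an.Nonneg
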